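import Pool.Agent.H598Z.Drift.Radial

set_option autoImplicit false

namespace Pool.Agent.H598Z.Drift

open MeasureTheory Set Filter Topology Metric Real
open scoped ENNReal

noncomputable def eps (k : ℕ) : ℝ := (1 / 4) ^ (k + 1)
noncomputable def al (k : ℕ) : ℝ := (1 / 2) ^ (k + 2)
noncomputable def lamb (k : ℕ) : ℝ := (1 / 2) ^ (k + 1)
noncomputable def ee (i : Fin 2) : E := EuclideanSpace.single i 1
noncomputable def pt (k : ℕ) : E := EuclideanSpace.single 0 (al k)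
noncomputable def dd (k : ℕ) (x : E) : ℝ := ‖x - pt k‖ ^ 2
noncomputable def cc (k : ℕ) (x : E) (i : Fin 2) : ℝ := x i - pt k i
noncomputable def T1 (k : ℕ) (x : E) (δ : ℝ) : ℝ := -(1 / 2) * log (dd k x + δ)
noncomputable def T2 (k : ℕ) (x : E) (i : Fin 2) (δ : ℝ) : ℝ := cc k x i / (dd k x + δ)
noncomputable def T3 (k : ℕ) (x : E) (i : Fin 2) (δ : ℝ) : ℝ :=
  1 / (dd k x + δ) - 2 * cc k x i ^ 2 / (dd k x + δ) ^ 2
noncomputable def Hn (n : ℕ) (δ : ℝ) (x : E) : ℝ := 1 + ∑ k ∈ Finset.range n, eps k * T1 k x δ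
noncomputable def Wn (n : ℕ) (δ : ℝ) (x : E) (i : Fin 2) : ℝ :=
  ∑ k ∈ Finset.range n, eps k * T2 k x i δ
noncomputable def Dn (n : ℕ) (δ : ℝ) (x : E) (i : Fin 2) : ℝ :=
  ∑ k ∈ Finset.range n, eps k * T3 k x i δ
noncomputable def En (n : ℕ) (δ : ℝ) (x : E) : ℝ :=
  ∑ k ∈ Finset.range n, eps k * (2 * δ / (dd k x + δ) ^ 2)

lemma eps_pos (k : ℕ) : 0 < eps k := by unfold eps; positivity
lemma eps_le (k : ℕ) : eps k ≤ 1 := pow_le_one₀ (by norm_num) (by norm_num)
lemma al_pos (k : ℕ) : 0 < al k := by unfold al; positivity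
lemma lamb_pos (k : ℕ) : 0 < lamb k := by unfold lamb; positivity
lemma eps_eq (k : ℕ) : eps k = lamb k ^ 2 := by
  unfold eps lamb; rw [← pow_mul, mul_comm, pow_mul]; norm_num
lemma al_eq (k : ℕ) : al k = lamb k / 2 := by unfold al lamb; rw [pow_succ _ (k + 1)]; ring
lemma al_le (k : ℕ) : al k ≤ 1 / 4 := by
  unfold al
  rw [pow_add]
  have : (1 / 2 : ℝ) ^ k ≤ 1 := pow_le_one₀ (by norm_num) (by norm_num)
  linarith
lemma summable_lamb : Summable lamb := by
  unfold lamb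
  exact (summable_nat_add_iff 1).mpr summable_geometric_two
lemma summable_eps : Summable eps := by
  unfold eps
  exact (summable_nat_add_iff (f := fun k => (1 / 4 : ℝ) ^ k) 1).mpr
    (summable_geometric_of_lt_one (by norm_num) (by norm_num))
lemma sum_lamb_le (n : ℕ) : ∑ k ∈ Finset.range n, lamb k ≤ 1 := by
  have : ∑ k ∈ Finset.range n, lamb k = 1 - (1 / 2) ^ n := by
    induction n with
    | zero => simp
    | succ n ih => rw [Finset.sum_range_succ, ih, lamb, pow_succ]; ring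
  rw [this]
  have : (0 : ℝ) ≤ (1 / 2) ^ n := by positivity
  linarith

lemma norm_pt (k : ℕ) : ‖pt k‖ = al k := by simp [pt, abs_of_pos (al_pos k)]
lemma dd_nonneg (k : ℕ) (x : E) : 0 ≤ dd k x := sq_nonneg _
lemma dd_eq (k : ℕ) (x : E) : dd k x = cc k x 0 ^ 2 + cc k x 1 ^ 2 := by
  unfold dd cc
  rw [EuclideanSpace.real_norm_sq_eq, Fin.sum_univ_two]
  rfl
lemma cc_sq_le (k : ℕ) (x : E) (i : Fin 2) : cc k x i ^ 2 ≤ dd k x := by
  rw [dd_eq]
  fin_cases i
  · exact le_add_of_nonneg_right (sq_nonneg _)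
  · exact le_add_of_nonneg_left (sq_nonneg _)
lemma cc_one (k : ℕ) (x : E) : cc k x 1 = x 1 := by simp [cc, pt]
lemma cc_zero (k : ℕ) (x : E) : cc k x 0 = x 0 - al k := by simp [cc, pt]
lemma dd_ge (k : ℕ) (x : E) : x 1 ^ 2 ≤ dd k x := by rw [← cc_one k]; exact cc_sq_le k x 1
lemma dd_le (k : ℕ) {x : E} (hx : x ∈ ball (0 : E) (1 / 4)) : dd k x ≤ 1 / 4 := by
  rw [mem_ball_zero_iff] at hx
  have h1 : ‖x - pt k‖ ≤ 1 / 2 := by
    have := norm_sub_le x (pt k)
    rw [norm_pt] at this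
    linarith [al_le k]
  unfold dd
  nlinarith [norm_nonneg (x - pt k)]

lemma T1_nonneg (k : ℕ) {x : E} (hx : x ∈ ball (0 : E) (1 / 4)) {δ : ℝ} (h0 : 0 ≤ δ)
    (h1 : δ ≤ 1 / 2) : 0 ≤ T1 k x δ := by
  unfold T1
  have := log_nonpos (add_nonneg (dd_nonneg k x) h0) (by linarith [dd_le k hx])
  linarith

lemma Hn_ge (n : ℕ) {x : E} (hx : x ∈ ball (0 : E) (1 / 4)) {δ : ℝ} (h0 : 0 ≤ δ)
    (h1 : δ ≤ 1 / 2) {k : ℕ} (hk : k ∈ Finset.range n) :
    1 - eps k / 2 * log (dd k x + δ) ≤ Hn n δ x := by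
  have := Finset.single_le_sum (f := fun k => eps k * T1 k x δ)
    (fun k _ => mul_nonneg (eps_pos k).le (T1_nonneg k hx h0 h1)) hk
  unfold Hn
  simp only [T1] at this ⊢
  linarith

lemma Hn_ge_one (n : ℕ) {x : E} (hx : x ∈ ball (0 : E) (1 / 4)) {δ : ℝ} (h0 : 0 ≤ δ)
    (h1 : δ ≤ 1 / 2) : 1 ≤ Hn n δ x :=
  le_add_of_nonneg_right (Finset.sum_nonneg fun k _ =>
    mul_nonneg (eps_pos k).le (T1_nonneg k hx h0 h1))

lemma Dn_sum (n : ℕ) {δ : ℝ} (h0 : 0 < δ) (x : E) : Dn n δ x 0 + Dn n δ x 1 = En n δ x := by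
  unfold Dn En
  rw [← Finset.sum_add_distrib]
  refine Finset.sum_congr rfl fun k _ => ?_
  unfold T3
  have : dd k x + δ ≠ 0 := (add_pos_of_nonneg_of_pos (dd_nonneg k x) h0).ne'
  field_simp
  rw [dd_eq]
  ring

/-- The basic comparison with the majorant. -/
lemma inv_le_Gs (n : ℕ) {x : E} (hx : x ∈ ball (0 : E) (1 / 4)) (hx1 : x 1 ≠ 0) {δ : ℝ}
    (h0 : 0 ≤ δ) (h1 : δ ≤ 1 / 2) {k : ℕ} (hk : k ∈ Finset.range n) :
    eps k ^ 2 / ((dd k x + δ) * Hn n δ x ^ 2) ≤ Gs (eps k) (dd k x) := by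
  have hd : 0 < dd k x := lt_of_lt_of_le (by positivity) (dd_ge k x)
  have hq : dd k x + δ ≤ 1 := by linarith [dd_le k hx]
  have hA : 0 < 1 - eps k / 2 * log (dd k x) := by
    have := mul_nonneg (eps_pos k).le (neg_nonneg.mpr (log_nonpos hd.le (by linarith)))
    linarith
  have hB : 0 ≤ 1 - eps k / 2 * log (dd k x + δ) := by
    have := mul_nonneg (eps_pos k).le (neg_nonneg.mpr (log_nonpos (by linarith) hq))
    linarith
  unfold Gs
  refine div_le_div_of_nonneg_left (sq_nonneg _) (by positivity) ?_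
  refine (mono_sq (eps_pos k) (eps_le k) hd (le_add_of_nonneg_right h0) hq).trans ?_
  exact mul_le_mul_of_nonneg_left (pow_le_pow_left₀ hB (Hn_ge n hx h0 h1 hk) 2) (by linarith)

lemma Wn_sq_le (n : ℕ) {x : E} (hx : x ∈ ball (0 : E) (1 / 4)) (hx1 : x 1 ≠ 0) {δ : ℝ}
    (h0 : 0 ≤ δ) (h1 : δ ≤ 1 / 2) (i : Fin 2) :
    (Wn n δ x i / Hn n δ x) ^ 2 ≤ ∑ k ∈ Finset.range n, Gs (eps k) (dd k x) / lamb k := by
  have hH := Hn_ge_one n hx h0 h1
  unfold Wn
  rw [Finset.sum_div]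
  have h2 := Finset.sum_sq_le_sum_mul_sum_of_sq_le_mul (Finset.range n)
    (r := fun k => eps k * T2 k x i δ / Hn n δ x) (f := lamb)
    (g := fun k => Gs (eps k) (dd k x) / lamb k) (fun k _ => (lamb_pos k).le)
    (fun k _ => div_nonneg (Gs_nonneg _ (dd_nonneg k x)) (lamb_pos k).le) (fun k hk => by
      rw [mul_div_cancel₀ _ (lamb_pos k).ne']
      refine le_trans ?_ (inv_le_Gs n hx hx1 h0 h1 hk)
      have hd : 0 < dd k x := lt_of_lt_of_le (by positivity) (dd_ge k x)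
      have hq : 0 < dd k x + δ := by linarith
      unfold T2
      have h3 : cc k x i ^ 2 ≤ dd k x + δ := (cc_sq_le k x i).trans (by linarith)
      rw [div_pow, mul_pow, div_pow, div_le_div_iff₀ (by positivity) (by positivity)]
      have h4 : eps k ^ 2 * (cc k x i ^ 2 / (dd k x + δ) ^ 2) * ((dd k x + δ) * Hn n δ x ^ 2) =
          eps k ^ 2 * Hn n δ x ^ 2 * (cc k x i ^ 2 / (dd k x + δ)) := by field_simp
      rw [h4]
      exact mul_le_of_le_one_right (by positivity) (div_le_one_of_le₀ h3 hq.le))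
  refine h2.trans (mul_le_of_le_one_left (Finset.sum_nonneg fun k _ => ?_) (sum_lamb_le n))
  exact div_nonneg (Gs_nonneg _ (dd_nonneg k x)) (lamb_pos k).le

lemma En_le (n : ℕ) {x : E} (hx : x ∈ ball (0 : E) (1 / 4)) (hx1 : x 1 ≠ 0) {δ : ℝ}
    (h0 : 0 ≤ δ) (h1 : δ ≤ 1 / 2) :
    En n δ x / Hn n δ x ^ 2 ≤ ∑ k ∈ Finset.range n, 2 / eps k * Gs (eps k) (dd k x) := by
  have hH := Hn_ge_one n hx h0 h1
  unfold En
  rw [Finset.sum_div]
  refine Finset.sum_le_sum fun k hk => ?_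
  have he := eps_pos k
  refine le_trans ?_ (mul_le_mul_of_nonneg_left (inv_le_Gs n hx hx1 h0 h1 hk) (by positivity))
  have hd : 0 < dd k x := lt_of_lt_of_le (by positivity) (dd_ge k x)
  have hq : 0 < dd k x + δ := by linarith
  have h4 : eps k * (2 * δ / (dd k x + δ) ^ 2) / Hn n δ x ^ 2 =
      2 / eps k * (eps k ^ 2 / ((dd k x + δ) * Hn n δ x ^ 2)) * (δ / (dd k x + δ)) := by
    field_simp
  rw [h4]
  exact mul_le_of_le_one_right (by positivity) (div_le_one_of_le₀ (by linarith) hq.le)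

lemma En_nonneg (n : ℕ) (x : E) {δ : ℝ} (h0 : 0 ≤ δ) : 0 ≤ En n δ x :=
  Finset.sum_nonneg fun k _ => mul_nonneg (eps_pos k).le (by positivity)

/-! Derivatives along coordinate lines. -/

lemma der_q (k : ℕ) (x : E) (i : Fin 2) (δ : ℝ) :
    HasDerivAt (fun t : ℝ => dd k (x + t • ee i) + δ) (2 * cc k x i) 0 := by
  have h1 : HasDerivAt (fun t : ℝ => x + t • ee i - pt k) (ee i) 0 := by
    simpa using (((hasDerivAt_id (0 : ℝ)).smul_const (ee i)).const_add x).sub_const (pt k)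
  have h2 := h1.norm_sq.add_const δ
  refine h2.congr_deriv ?_
  simp [ee, cc, EuclideanSpace.inner_single_right]

lemma der_c (k : ℕ) (x : E) (i : Fin 2) :
    HasDerivAt (fun t : ℝ => cc k (x + t • ee i) i) 1 0 := by
  have : (fun t : ℝ => cc k (x + t • ee i) i) = fun t => t + cc k x i := by
    funext t; simp [cc, ee]; ring
  rw [this]
  exact (hasDerivAt_id (0 : ℝ)).add_const _

lemma der_H (n : ℕ) {δ : ℝ} (h0 : 0 < δ) (x : E) (i : Fin 2) :
    HasDerivAt (fun t : ℝ => Hn n δ (x + t • ee i)) (-Wn n δ x i) 0 := by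
  unfold Hn Wn
  rw [← Finset.sum_neg_distrib]
  refine HasDerivAt.const_add _ (HasDerivAt.fun_sum fun k _ => ?_)
  have hq : dd k (x + (0 : ℝ) • ee i) + δ ≠ 0 :=
    (add_pos_of_nonneg_of_pos (dd_nonneg k _) h0).ne'
  refine ((((der_q k x i δ).log hq).const_mul (-(1 / 2))).const_mul (eps k)).congr_deriv ?_
  simp only [zero_smul, add_zero, T2]
  ring

lemma der_W (n : ℕ) {δ : ℝ} (h0 : 0 < δ) (x : E) (i : Fin 2) :
    HasDerivAt (fun t : ℝ => Wn n δ (x + t • ee i) i) (Dn n δ x i) 0 := by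
  unfold Wn Dn
  refine HasDerivAt.fun_sum fun k _ => ?_
  have hq : dd k (x + (0 : ℝ) • ee i) + δ ≠ 0 :=
    (add_pos_of_nonneg_of_pos (dd_nonneg k _) h0).ne'
  refine (((der_c k x i).div (der_q k x i δ) hq).const_mul (eps k)).congr_deriv ?_
  simp only [zero_smul, add_zero, T3] at hq ⊢
  field_simp

lemma der_u (n : ℕ) {δ : ℝ} (h0 : 0 < δ) {x : E} (hx : Hn n δ x ≠ 0) (i : Fin 2) :
    HasLineDerivAt ℝ (fun y => (Hn n δ y)⁻¹) (Wn n δ x i / Hn n δ x ^ 2) x (ee i) := by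
  refine ((der_H n h0 x i).inv (by simpa using hx)).congr_deriv ?_
  simp

lemma der_g (n : ℕ) {δ : ℝ} (h0 : 0 < δ) {x : E} (hx : Hn n δ x ≠ 0) (i : Fin 2) :
    HasLineDerivAt ℝ (fun y => Wn n δ y i / Hn n δ y ^ 2)
      (Dn n δ x i / Hn n δ x ^ 2 + 2 * Wn n δ x i ^ 2 / Hn n δ x ^ 3) x (ee i) := by
  refine ((der_W n h0 x i).div ((der_H n h0 x i).pow 2) (by simpa using hx)).congr_deriv ?_
  simp only [zero_smul, add_zero, Pi.pow_apply]
  field_simp
  ring

lemma cont_dd (k : ℕ) : Continuous (dd k) := by unfold dd; fun_prop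
lemma cont_cc (k : ℕ) (i : Fin 2) : Continuous (fun x => cc k x i) := by unfold cc; fun_prop

lemma cont_Hn (n : ℕ) {δ : ℝ} (h0 : 0 < δ) : Continuous (Hn n δ) := by
  unfold Hn T1
  refine continuous_const.add (continuous_finsetSum _ fun k _ => continuous_const.mul
    (continuous_const.mul (((cont_dd k).add continuous_const).log fun x => ?_)))
  exact (add_pos_of_nonneg_of_pos (dd_nonneg k _) h0).ne'

lemma cont_Wn (n : ℕ) {δ : ℝ} (h0 : 0 < δ) (i : Fin 2) : Continuous (fun x => Wn n δ x i) := by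
  unfold Wn T2
  refine continuous_finsetSum _ fun k _ => continuous_const.mul
    ((cont_cc k i).div ((cont_dd k).add continuous_const) fun x => ?_)
  exact (add_pos_of_nonneg_of_pos (dd_nonneg k _) h0).ne'

lemma cont_Dn (n : ℕ) {δ : ℝ} (h0 : 0 < δ) (i : Fin 2) : Continuous (fun x => Dn n δ x i) := by
  unfold Dn T3
  have hq : ∀ k x, dd k x + δ ≠ 0 := fun k x => (add_pos_of_nonneg_of_pos (dd_nonneg k _) h0).ne'
  refine continuous_finsetSum _ fun k _ => continuous_const.mul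
    ((continuous_const.div ((cont_dd k).add continuous_const) (hq k)).sub
      ((continuous_const.mul ((cont_cc k i).pow 2)).div
        (((cont_dd k).add continuous_const).pow 2) fun x => pow_ne_zero _ (hq k x)))

/-- Integration by parts against a test function. -/
lemma ibp {R : ℝ} {h : E → ℝ} (h1 : ContDiff ℝ 1 h) (h2 : HasCompactSupport h)
    (h3 : tsupport h ⊆ ball 0 R) {F F' : E → ℝ} (hF : ContinuousOn F (ball 0 R))
    (hF' : ContinuousOn F' (ball 0 R)) (v : E)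
    (hd : ∀ x ∈ ball (0 : E) R, HasLineDerivAt ℝ F (F' x) x v) :
    ∫ x in ball (0 : E) R, F x * fderiv ℝ h x v = - ∫ x in ball (0 : E) R, F' x * h x := by
  have hc : Continuous fun x => fderiv ℝ h x v :=
    (h1.continuous_fderiv one_ne_zero).clm_apply continuous_const
  have hz : ∀ x, x ∉ tsupport h → h x = 0 := fun x hx => image_eq_zero_of_notMem_tsupport hx
  have hz' : ∀ x, x ∉ tsupport h → fderiv ℝ h x v = 0 := fun x hx => by
    rw [fderiv_of_notMem_tsupport ℝ hx]; rfl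
  have hint : ∀ {G φ : E → ℝ}, ContinuousOn G (ball 0 R) → Continuous φ →
      (∀ x, x ∉ tsupport h → φ x = 0) → Integrable (fun x => G x * φ x) := by
    intro G φ hG hφ hφ0
    refine (integrableOn_iff_integrable_of_support_subset (s := tsupport h) ?_).mp ?_
    · intro x hx
      by_contra hx'
      exact hx (by simp [hφ0 x hx'])
    · exact ((hG.mono h3).mul hφ.continuousOn).integrableOn_compact h2
  rw [setIntegral_eq_integral_of_forall_compl_eq_zero
      (fun x hx => by rw [hz' x (fun h4 => hx (h3 h4)), mul_zero]),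
    setIntegral_eq_integral_of_forall_compl_eq_zero
      (fun x hx => by rw [hz x (fun h4 => hx (h3 h4)), mul_zero])]
  exact integral_bilinear_hasLineDerivAt_right_eq_neg_left_of_integrable
    (B := ContinuousLinearMap.mul ℝ ℝ) (hint hF' h1.continuous hz) (hint hF hc hz')
    (hint hF h1.continuous hz) (fun x hx => hd x (h3 hx))
    (fun x _ => (h1.differentiable one_ne_zero x).hasFDerivAt.hasLineDerivAt v)

end Pool.Agent.H598Z.Drift
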