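import Pool.Agent.H598Z.Drift.Approx

set_option autoImplicit false

namespace Pool.Agent.H598Z.Drift

open MeasureTheory Set Filter Topology Metric Real
open scoped ENNReal

/-- Lebesgue measure on the disc. -/
noncomputable def mu : Measure E := volume.restrict (ball (0 : E) (1 / 4))

instance : IsFiniteMeasure mu := by
  unfold mu
  exact isFiniteMeasure_restrict.mpr measure_ball_lt_top.ne

noncomputable def HH (x : E) : ℝ := 1 + ∑' k, eps k * T1 k x 0
noncomputable def WW (x : E) (i : Fin 2) : ℝ := ∑' k, eps k * T2 k x i 0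
noncomputable def MM (x : E) : ℝ :=
  (∑' k, ENNReal.ofReal (Gs (eps k) (dd k x) / lamb k)).toReal

lemma axis_null : (volume : Measure E) {x | x 1 = 0} = 0 := by
  have h := Measure.addHaar_submodule (volume : Measure E)
    (LinearMap.ker (EuclideanSpace.projₗ (𝕜 := ℝ) (1 : Fin 2))) (by
      intro h
      have : ee 1 ∈ LinearMap.ker (EuclideanSpace.projₗ (𝕜 := ℝ) (1 : Fin 2)) := by
        rw [h]; trivial
      simp [ee] at this)
  exact h

lemma ae_off : ∀ᵐ x ∂mu, x ∈ ball (0 : E) (1 / 4) ∧ x 1 ≠ 0 := by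
  unfold mu
  filter_upwards [ae_restrict_mem measurableSet_ball,
    ae_restrict_of_ae (compl_mem_ae_iff.mpr axis_null)] with x h1 h2
  exact ⟨h1, h2⟩

lemma meas_term (k : ℕ) : Measurable fun x : E => Gs (eps k) (dd k x) :=
  (meas_Gs _).comp (cont_dd k).measurable

lemma lint_term (k : ℕ) : ∫⁻ x, ENNReal.ofReal (Gs (eps k) (dd k x)) ∂mu ≤
    ENNReal.ofReal (Cb * eps k) :=
  shifted (eps_pos k) (pt k) (by rw [norm_pt]; exact al_le k)

lemma int_term (k : ℕ) : Integrable (fun x : E => Gs (eps k) (dd k x)) mu := by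
  refine ⟨(meas_term k).aestronglyMeasurable, ?_⟩
  rw [hasFiniteIntegral_iff_ofReal (Eventually.of_forall fun x => Gs_nonneg _ (dd_nonneg k x))]
  exact (lint_term k).trans_lt ENNReal.ofReal_lt_top

lemma meas_S : Measurable fun x : E => ∑' k, ENNReal.ofReal (Gs (eps k) (dd k x) / lamb k) :=
  Measurable.tsum fun k => ((meas_term k).div_const _).ennreal_ofReal

lemma Cb_nonneg : 0 ≤ Cb := by unfold Cb; positivity

lemma lint_S : ∫⁻ x, ∑' k, ENNReal.ofReal (Gs (eps k) (dd k x) / lamb k) ∂mu ≠ ⊤ := by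
  rw [lintegral_tsum fun k => ((meas_term k).div_const _).ennreal_ofReal.aemeasurable]
  have h1 : ∀ k, ∫⁻ x, ENNReal.ofReal (Gs (eps k) (dd k x) / lamb k) ∂mu ≤
      ENNReal.ofReal (Cb * lamb k) := by
    intro k
    have h2 : ∀ x, ENNReal.ofReal (Gs (eps k) (dd k x) / lamb k) =
        ENNReal.ofReal (lamb k)⁻¹ * ENNReal.ofReal (Gs (eps k) (dd k x)) := fun x => by
      rw [← ENNReal.ofReal_mul (inv_nonneg.mpr (lamb_pos k).le), div_eq_inv_mul]
    simp_rw [h2]
    rw [lintegral_const_mul _ (meas_term k).ennreal_ofReal]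
    refine (mul_le_mul_right (lint_term k) _).trans (le_of_eq ?_)
    rw [← ENNReal.ofReal_mul (inv_nonneg.mpr (lamb_pos k).le), eps_eq]
    congr 1
    have := (lamb_pos k).ne'
    field_simp
  refine ne_top_of_le_ne_top ?_ (ENNReal.tsum_le_tsum h1)
  rw [← ENNReal.ofReal_tsum_of_nonneg (fun k => mul_nonneg Cb_nonneg (lamb_pos k).le)
    (summable_lamb.mul_left _)]
  exact ENNReal.ofReal_ne_top

lemma int_MM : Integrable MM mu := integrable_toReal_of_lintegral_ne_top meas_S.aemeasurable lint_S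

lemma ae_sum_le : ∀ᵐ x ∂mu, ∀ n, ∑ k ∈ Finset.range n, Gs (eps k) (dd k x) / lamb k ≤ MM x := by
  filter_upwards [ae_lt_top meas_S lint_S] with x hx n
  unfold MM
  have h0 : ∀ k, 0 ≤ Gs (eps k) (dd k x) / lamb k := fun k =>
    div_nonneg (Gs_nonneg _ (dd_nonneg k x)) (lamb_pos k).le
  rw [← ENNReal.ofReal_le_iff_le_toReal hx.ne, ENNReal.ofReal_sum_of_nonneg fun k _ => h0 k]
  exact ENNReal.sum_le_tsum _

lemma aesm_of_contOn {F : E → ℝ} (hF : ContinuousOn F (ball 0 (1 / 4))) :
    AEStronglyMeasurable F mu := hF.aestronglyMeasurable measurableSet_ball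

lemma cont_En (n : ℕ) {δ : ℝ} (h0 : 0 < δ) : Continuous (En n δ) := by
  have : En n δ = fun x => Dn n δ x 0 + Dn n δ x 1 := funext fun x => (Dn_sum n h0 x).symm
  rw [this]
  exact (cont_Dn n h0 0).add (cont_Dn n h0 1)

lemma contOn_div {n : ℕ} {δ : ℝ} (h0 : 0 < δ) (h1 : δ ≤ 1 / 2) {F : E → ℝ} (hF : Continuous F)
    (m : ℕ) : ContinuousOn (fun x => F x / Hn n δ x ^ m) (ball 0 (1 / 4)) :=
  hF.continuousOn.div ((cont_Hn n h0).pow m).continuousOn fun x hx =>
    pow_ne_zero _ (by linarith [Hn_ge_one n hx h0.le h1])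

lemma exists_delta (n : ℕ) : ∃ δ : ℝ, 0 < δ ∧ δ ≤ 1 / 2 ∧ δ ≤ 1 / ((n : ℝ) + 1) ∧
    ∫ x, En n δ x / Hn n δ x ^ 2 ∂mu ≤ 1 / ((n : ℝ) + 1) := by
  let d : ℕ → ℝ := fun m => 1 / ((m : ℝ) + 2)
  have d0 : ∀ m, 0 < d m := fun m => by simp only [d]; positivity
  have d1 : ∀ m, d m ≤ 1 / 2 := fun m =>
    one_div_le_one_div_of_le (by norm_num) (by linarith [(Nat.cast_nonneg m : (0 : ℝ) ≤ m)])
  have dl : Tendsto d atTop (𝓝 0) :=
    tendsto_const_nhds.div_atTop (tendsto_atTop_add_const_right _ _ tendsto_natCast_atTop_atTop)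
  have h := tendsto_integral_of_dominated_convergence (μ := mu)
    (F := fun m x => En n (d m) x / Hn n (d m) x ^ 2) (f := fun _ => (0 : ℝ))
    (fun x => ∑ k ∈ Finset.range n, 2 / eps k * Gs (eps k) (dd k x))
    (fun m => aesm_of_contOn (contOn_div (d0 m) (d1 m) (cont_En n (d0 m)) 2))
    (integrable_finsetSum _ fun k _ => (int_term k).const_mul _)
    (fun m => by
      filter_upwards [ae_off] with x hx
      rw [Real.norm_of_nonneg (div_nonneg (En_nonneg n x (d0 m).le) (sq_nonneg _))]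
      exact En_le n hx.1 hx.2 (d0 m).le (d1 m))
    (by
      filter_upwards [ae_off] with x hx
      have h2 : Tendsto (fun m => En n (d m) x) atTop (𝓝 (En n 0 x)) := by
        unfold En
        refine tendsto_finsetSum _ fun k _ => Tendsto.const_mul _ ?_
        have hd : 0 < dd k x := lt_of_lt_of_le (by have := hx.2; positivity) (dd_ge k x)
        exact (dl.const_mul 2).div ((dl.const_add _).pow 2) (by positivity)
      have h3 : En n 0 x = 0 := by simp [En]
      rw [h3] at h2
      refine squeeze_zero (fun m => div_nonneg (En_nonneg n x (d0 m).le) (sq_nonneg _))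
        (fun m => ?_) h2
      exact div_le_self (En_nonneg n x (d0 m).le)
        (one_le_pow₀ (Hn_ge_one n hx.1 (d0 m).le (d1 m))))
  rw [integral_zero] at h
  have hp : (0 : ℝ) < 1 / ((n : ℝ) + 1) := by positivity
  obtain ⟨m, hm1, hm2⟩ := ((h.eventually (ge_mem_nhds hp)).and
    (dl.eventually (ge_mem_nhds hp))).exists
  exact ⟨d m, d0 m, d1 m, hm2, hm1⟩

noncomputable def del (n : ℕ) : ℝ := (exists_delta n).choose
lemma del_pos (n : ℕ) : 0 < del n := (exists_delta n).choose_spec.1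
lemma del_le (n : ℕ) : del n ≤ 1 / 2 := (exists_delta n).choose_spec.2.1
lemma del_lim : Tendsto del atTop (𝓝 0) :=
  squeeze_zero (fun n => (del_pos n).le) (fun n => (exists_delta n).choose_spec.2.2.1)
    tendsto_one_div_add_atTop_nhds_zero_nat
lemma err_lim : Tendsto (fun n => ∫ x, En n (del n) x / Hn n (del n) x ^ 2 ∂mu) atTop (𝓝 0) :=
  squeeze_zero (fun n => integral_nonneg fun x =>
      div_nonneg (En_nonneg n x (del_pos n).le) (sq_nonneg _))
    (fun n => (exists_delta n).choose_spec.2.2.2) tendsto_one_div_add_atTop_nhds_zero_nat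

lemma tannery {f : ℕ → ℝ → ℝ} {C : ℝ} (hc : ∀ k, ContinuousAt (f k) 0)
    (hb : ∀ k n, |f k (del n)| ≤ C) :
    Tendsto (fun n => ∑ k ∈ Finset.range n, eps k * f k (del n)) atTop
      (𝓝 (∑' k, eps k * f k 0)) := by
  have h := tendsto_tsum_of_dominated_convergence (𝓕 := atTop)
    (f := fun n k => if k < n then eps k * f k (del n) else 0) (g := fun k => eps k * f k 0)
    (bound := fun k => eps k * C) (summable_eps.mul_right C) (fun k => by
      refine (((hc k).tendsto.comp del_lim).const_mul (eps k)).congr' ?_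
      filter_upwards [eventually_gt_atTop k] with n hn
      simp [hn]) (Eventually.of_forall fun n k => by
      have hC : 0 ≤ C := (abs_nonneg _).trans (hb k n)
      split_ifs
      · rw [Real.norm_eq_abs, abs_mul, abs_of_pos (eps_pos k)]
        exact mul_le_mul_of_nonneg_left (hb k n) (eps_pos k).le
      · rw [norm_zero]; exact mul_nonneg (eps_pos k).le hC)
  refine h.congr fun n => ?_
  rw [tsum_eq_sum (s := Finset.range n) fun k hk => by
    rw [if_neg (by simpa using hk)]]
  exact Finset.sum_congr rfl fun k hk => by rw [if_pos (Finset.mem_range.mp hk)]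

lemma H_lim {x : E} (hx : x ∈ ball (0 : E) (1 / 4)) (hx1 : x 1 ≠ 0) :
    Tendsto (fun n => Hn n (del n) x) atTop (𝓝 (HH x)) := by
  unfold Hn HH
  have hp : 0 < x 1 ^ 2 := by positivity
  refine Tendsto.const_add _ (tannery (f := fun k δ => T1 k x δ)
    (C := -(1 / 2) * log (x 1 ^ 2)) (fun k => ?_) fun k n => ?_)
  · have hd : 0 < dd k x := lt_of_lt_of_le hp (dd_ge k x)
    unfold T1
    exact continuousAt_const.mul ((continuousAt_const.add continuousAt_id).log (by simpa using hd.ne'))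
  · rw [abs_of_nonneg (T1_nonneg k hx (del_pos n).le (del_le n))]
    unfold T1
    have := log_le_log hp ((dd_ge k x).trans (le_add_of_nonneg_right (del_pos n).le))
    linarith

lemma W_lim {x : E} (hx : x ∈ ball (0 : E) (1 / 4)) (hx1 : x 1 ≠ 0) (i : Fin 2) :
    Tendsto (fun n => Wn n (del n) x i) atTop (𝓝 (WW x i)) := by
  unfold Wn WW
  have hp : 0 < x 1 ^ 2 := by positivity
  refine tannery (f := fun k δ => T2 k x i δ) (C := 1 / x 1 ^ 2) (fun k => ?_) fun k n => ?_
  · have hd : 0 < dd k x := lt_of_lt_of_le hp (dd_ge k x)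
    unfold T2
    exact continuousAt_const.div (continuousAt_const.add continuousAt_id) (by simpa using hd.ne')
  · unfold T2
    have h1 : x 1 ^ 2 ≤ dd k x + del n := (dd_ge k x).trans (le_add_of_nonneg_right (del_pos n).le)
    rw [abs_div, abs_of_pos (hp.trans_le h1)]
    refine div_le_div₀ zero_le_one ?_ hp h1
    exact abs_le_one_iff_mul_self_le_one.mpr (by nlinarith [cc_sq_le k x i, dd_le k hx])

lemma HH_ge {x : E} (hx : x ∈ ball (0 : E) (1 / 4)) (hx1 : x 1 ≠ 0) : 1 ≤ HH x :=
  ge_of_tendsto' (H_lim hx hx1) fun n => Hn_ge_one n hx (del_pos n).le (del_le n)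

/-- Passing to the limit against a test function. -/
lemma dct {F : ℕ → E → ℝ} {f G φ : E → ℝ} (hF : ∀ n, AEStronglyMeasurable (F n) mu)
    (hG : Integrable G mu) (hb : ∀ n, ∀ᵐ x ∂mu, |F n x| ≤ G x)
    (hl : ∀ᵐ x ∂mu, Tendsto (fun n => F n x) atTop (𝓝 (f x))) (hφ : Continuous φ)
    (hc : HasCompactSupport φ) :
    Tendsto (fun n => ∫ x, F n x * φ x ∂mu) atTop (𝓝 (∫ x, f x * φ x ∂mu)) := by
  obtain ⟨C, hC⟩ := hφ.bounded_above_of_compact_support hc
  refine tendsto_integral_of_dominated_convergence (fun x => G x * C)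
    (fun n => (hF n).mul hφ.aestronglyMeasurable) (hG.mul_const C) (fun n => ?_) ?_
  · filter_upwards [hb n] with x hx
    rw [norm_mul]
    exact mul_le_mul hx (hC x) (norm_nonneg _) ((abs_nonneg _).trans hx)
  · filter_upwards [hl] with x hx
    exact hx.mul_const _

end Pool.Agent.H598Z.Drift
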