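import Pool.Agent.H598Z.Drift.Limit

set_option autoImplicit false

namespace Pool.Agent.H598Z.Drift

open MeasureTheory Set Filter Topology Metric Real
open scoped ENNReal

noncomputable def uu (x : E) : ℝ := (HH x)⁻¹
noncomputable def gg (x : E) : E := WithLp.toLp 2 fun i => WW x i / HH x ^ 2
noncomputable def bb (x : E) : E := WithLp.toLp 2 fun i => 2 * (WW x i / HH x)

lemma ae_ratio (n : ℕ) (i : Fin 2) :
    ∀ᵐ x ∂mu, (Wn n (del n) x i / Hn n (del n) x) ^ 2 ≤ MM x := by
  filter_upwards [ae_off, ae_sum_le] with x hx hs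
  exact (Wn_sq_le n hx.1 hx.2 (del_pos n).le (del_le n) i).trans (hs n)

lemma lim_div (i : Fin 2) (p m : ℕ) : ∀ᵐ x ∂mu,
    Tendsto (fun n => Wn n (del n) x i ^ p / Hn n (del n) x ^ m) atTop
      (𝓝 (WW x i ^ p / HH x ^ m)) := by
  filter_upwards [ae_off] with x hx
  exact ((W_lim hx.1 hx.2 i).pow p).div ((H_lim hx.1 hx.2).pow m)
    (pow_ne_zero _ (by linarith [HH_ge hx.1 hx.2]))

lemma aesm_n (n : ℕ) (i : Fin 2) (p m : ℕ) :
    AEStronglyMeasurable (fun x => Wn n (del n) x i ^ p / Hn n (del n) x ^ m) mu :=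
  aesm_of_contOn (contOn_div (del_pos n) (del_le n) ((cont_Wn n (del_pos n) i).pow p) m)

lemma aesm_lim (i : Fin 2) (p m : ℕ) :
    AEStronglyMeasurable (fun x => WW x i ^ p / HH x ^ m) mu :=
  aestronglyMeasurable_of_tendsto_ae atTop (fun n => aesm_n n i p m) (lim_div i p m)

lemma ae_ratio_lim (i : Fin 2) : ∀ᵐ x ∂mu, (WW x i / HH x) ^ 2 ≤ MM x := by
  filter_upwards [ae_all_iff.mpr fun n => ae_ratio n i, lim_div i 2 2] with x h1 h2
  rw [div_pow]
  exact le_of_tendsto' h2 fun n => by rw [← div_pow]; exact h1 n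

lemma aesm_uu : AEStronglyMeasurable uu mu := by
  have := aesm_lim 0 0 1
  unfold uu
  simpa using this

lemma uu_le : ∀ᵐ x ∂mu, ‖uu x‖ ≤ 1 := by
  filter_upwards [ae_off] with x hx
  have := HH_ge hx.1 hx.2
  unfold uu
  rw [Real.norm_of_nonneg (by positivity)]
  exact inv_le_one_of_one_le₀ this

lemma uu_top : MemLp uu ⊤ mu := memLp_top_of_bound aesm_uu 1 uu_le
lemma uu_two : MemLp uu 2 mu := uu_top.mono_exponent le_top

lemma ratio_two (i : Fin 2) : MemLp (fun x => WW x i / HH x) 2 mu := by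
  have h : AEStronglyMeasurable (fun x => WW x i / HH x) mu := by simpa using aesm_lim i 1 1
  rw [memLp_two_iff_integrable_sq h]
  refine int_MM.mono' (h.pow 2) ?_
  filter_upwards [ae_ratio_lim i] with x hx
  rwa [Real.norm_of_nonneg (sq_nonneg _)]

lemma bb_two : MemLp bb 2 mu := by
  rw [memLp_piLp_iff]
  exact fun i => (ratio_two i).const_mul 2

lemma gi_two (i : Fin 2) : MemLp (fun x => WW x i / HH x ^ 2) 2 mu := by
  have h : AEStronglyMeasurable (fun x => WW x i / HH x ^ 2) mu := by simpa using aesm_lim i 1 2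
  refine (ratio_two i).mono h ?_
  filter_upwards [ae_off] with x hx
  have := HH_ge hx.1 hx.2
  rw [norm_div, norm_div, Real.norm_of_nonneg (by positivity : 0 ≤ HH x ^ 2),
    Real.norm_of_nonneg (by positivity : 0 ≤ HH x)]
  exact div_le_div_of_nonneg_left (norm_nonneg _) (by positivity) (by nlinarith)

lemma gg_two : MemLp gg 2 mu := by
  rw [memLp_piLp_iff]
  exact gi_two

lemma int_test {h : E → ℝ} (h1 : Continuous h) (h2 : HasCompactSupport h)
    (h3 : tsupport h ⊆ ball 0 (1 / 4)) {G : E → ℝ} (hG : ContinuousOn G (ball 0 (1 / 4))) :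
    Integrable (fun x => G x * h x) mu := by
  refine Integrable.restrict ?_
  refine (integrableOn_iff_integrable_of_support_subset (s := tsupport h) ?_).mp ?_
  · intro x hx
    by_contra hx'
    exact hx (by simp [image_eq_zero_of_notMem_tsupport hx'])
  · exact ((hG.mono h3).mul h1.continuousOn).integrableOn_compact h2

lemma g_bound (n : ℕ) (i : Fin 2) :
    ∀ᵐ x ∂mu, |Wn n (del n) x i ^ 1 / Hn n (del n) x ^ 2| ≤ 1 + MM x := by
  filter_upwards [ae_off, ae_ratio n i] with x hx h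
  have h1 := Hn_ge_one n hx.1 (del_pos n).le (del_le n)
  have h2 : |Wn n (del n) x i ^ 1 / Hn n (del n) x ^ 2| ≤ |Wn n (del n) x i / Hn n (del n) x| := by
    rw [pow_one, abs_div, abs_div, abs_of_pos (by positivity : 0 < Hn n (del n) x ^ 2),
      abs_of_pos (by positivity : 0 < Hn n (del n) x)]
    exact div_le_div_of_nonneg_left (abs_nonneg _) (by positivity) (by nlinarith)
  rw [← sq_abs] at h
  nlinarith [abs_nonneg (Wn n (del n) x i / Hn n (del n) x),
    sq_nonneg (|Wn n (del n) x i / Hn n (del n) x| - 1)]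

lemma q_bound (n : ℕ) (i : Fin 2) :
    ∀ᵐ x ∂mu, |Wn n (del n) x i ^ 2 / Hn n (del n) x ^ 3| ≤ MM x := by
  filter_upwards [ae_off, ae_ratio n i] with x hx h
  have h1 := Hn_ge_one n hx.1 (del_pos n).le (del_le n)
  rw [abs_of_nonneg (by positivity)]
  refine le_trans ?_ h
  rw [div_pow]
  exact div_le_div_of_nonneg_left (sq_nonneg _) (by positivity) (by nlinarith)

section test
variable {h : E → ℝ} (h1 : ContDiff ℝ 1 h) (h2 : HasCompactSupport h)
  (h3 : tsupport h ⊆ ball 0 (1 / 4))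
include h1 h2 h3

omit h3 in
lemma test_der (i : Fin 2) : Continuous (fun x => fderiv ℝ h x (ee i)) ∧
    HasCompactSupport (fun x => fderiv ℝ h x (ee i)) :=
  ⟨(h1.continuous_fderiv one_ne_zero).clm_apply continuous_const, h2.fderiv_apply ℝ (ee i)⟩

lemma weak_grad (i : Fin 2) :
    ∫ x, uu x * fderiv ℝ h x (ee i) ∂mu = - ∫ x, WW x i / HH x ^ 2 * h x ∂mu := by
  have hne : ∀ n, ∀ x ∈ ball (0 : E) (1 / 4), Hn n (del n) x ≠ 0 := fun n x hx => by
    linarith [Hn_ge_one n hx (del_pos n).le (del_le n)]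
  have a1 := dct (F := fun n x => (Hn n (del n) x)⁻¹) (f := uu) (G := fun _ => 1)
    (fun n => aesm_of_contOn ((cont_Hn n (del_pos n)).continuousOn.inv₀ (hne n)))
    (integrable_const _) (fun n => by
      filter_upwards [ae_off] with x hx
      have := Hn_ge_one n hx.1 (del_pos n).le (del_le n)
      rw [abs_of_nonneg (by positivity)]
      exact inv_le_one_of_one_le₀ this) (by
      filter_upwards [ae_off] with x hx
      exact (H_lim hx.1 hx.2).inv₀ (by linarith [HH_ge hx.1 hx.2]))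
    (test_der h1 h2 i).1 (test_der h1 h2 i).2
  have a2 := dct (fun n => aesm_n n i 1 2) ((integrable_const 1).add int_MM) (fun n => g_bound n i)
    (lim_div i 1 2) h1.continuous h2
  simp only [pow_one] at a2
  refine tendsto_nhds_unique a1 (a2.neg.congr fun n => ?_)
  exact (ibp h1 h2 h3 ((cont_Hn n (del_pos n)).continuousOn.inv₀ (hne n))
    (contOn_div (del_pos n) (del_le n) (cont_Wn n (del_pos n) i) 2) (ee i)
    fun x hx => der_u n (del_pos n) (hne n x hx) i).symm

lemma weak_eq :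
    ∫ x, WW x 0 / HH x ^ 2 * fderiv ℝ h x (ee 0) ∂mu +
      ∫ x, WW x 1 / HH x ^ 2 * fderiv ℝ h x (ee 1) ∂mu +
      2 * ∫ x, WW x 0 ^ 2 / HH x ^ 3 * h x ∂mu + 2 * ∫ x, WW x 1 ^ 2 / HH x ^ 3 * h x ∂mu = 0 := by
  have hne : ∀ n, ∀ x ∈ ball (0 : E) (1 / 4), Hn n (del n) x ≠ 0 := fun n x hx => by
    linarith [Hn_ge_one n hx (del_pos n).le (del_le n)]
  have a1 := fun i => dct (fun n => aesm_n n i 1 2) ((integrable_const 1).add int_MM)
    (fun n => g_bound n i) (lim_div i 1 2) (test_der h1 h2 i).1 (test_der h1 h2 i).2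
  have a2 := fun i => dct (fun n => aesm_n n i 2 3) int_MM
    (fun n => q_bound n i) (lim_div i 2 3) h1.continuous h2
  simp only [pow_one] at a1
  have a3 := (((a1 0).add (a1 1)).add ((a2 0).const_mul 2)).add ((a2 1).const_mul 2)
  refine tendsto_nhds_unique a3 ?_
  obtain ⟨C, hC⟩ := h1.continuous.bounded_above_of_compact_support h2
  have a4 : Tendsto (fun n => ∫ x, En n (del n) x / Hn n (del n) x ^ 2 * h x ∂mu) atTop (𝓝 0) := by
    have a5 := err_lim.mul_const C
    rw [zero_mul] at a5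
    refine squeeze_zero_norm (fun n => ?_) a5
    rw [← integral_mul_const]
    refine norm_integral_le_of_norm_le ?_ (Eventually.of_forall fun x => ?_)
    · refine Integrable.mul_const ?_ C
      refine (integrable_finsetSum (Finset.range n)
        fun k _ => (int_term k).const_mul (2 / eps k)).mono'
        (aesm_of_contOn (contOn_div (del_pos n) (del_le n) (cont_En n (del_pos n)) 2)) ?_
      filter_upwards [ae_off] with x hx
      rw [Real.norm_of_nonneg (div_nonneg (En_nonneg n x (del_pos n).le) (sq_nonneg _))]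
      exact En_le n hx.1 hx.2 (del_pos n).le (del_le n)
    · have := div_nonneg (En_nonneg n x (del_pos n).le) (sq_nonneg (Hn n (del n) x))
      rw [norm_mul, Real.norm_of_nonneg this]
      exact mul_le_mul_of_nonneg_left (hC x) this
  have a6 := a4.neg
  rw [neg_zero] at a6
  refine a6.congr fun n => ?_
  have cD := fun i => contOn_div (n := n) (del_pos n) (del_le n) (cont_Dn n (del_pos n) i) 2
  have cQ : ∀ i, ContinuousOn (fun x => Wn n (del n) x i ^ 2 / Hn n (del n) x ^ 3)
      (ball 0 (1 / 4)) :=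
    fun i => contOn_div (n := n) (del_pos n) (del_le n) ((cont_Wn n (del_pos n) i).pow 2) 3
  have b1 : ∀ i, ∫ x, Wn n (del n) x i / Hn n (del n) x ^ 2 * fderiv ℝ h x (ee i) ∂mu =
      - ∫ x, Dn n (del n) x i / Hn n (del n) x ^ 2 * h x ∂mu -
        2 * ∫ x, Wn n (del n) x i ^ 2 / Hn n (del n) x ^ 3 * h x ∂mu := by
    intro i
    have b2 := ibp h1 h2 h3 (contOn_div (del_pos n) (del_le n) (cont_Wn n (del_pos n) i) 2)
      ((cD i).add (contOn_div (del_pos n) (del_le n)
        (continuous_const.mul ((cont_Wn n (del_pos n) i).pow 2)) 3)) (ee i)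
      fun x hx => der_g n (del_pos n) (hne n x hx) i
    refine b2.trans ?_
    rw [← integral_const_mul, ← neg_add', ← integral_add (int_test h1.continuous h2 h3 (cD i))
      ((int_test h1.continuous h2 h3 (cQ i)).const_mul 2)]
    congr 1
    refine integral_congr_ae (Eventually.of_forall fun x => ?_)
    simp only [Pi.add_apply, Pi.mul_apply, Pi.pow_apply]
    ring
  have b3 : ∫ x, En n (del n) x / Hn n (del n) x ^ 2 * h x ∂mu =
      ∫ x, Dn n (del n) x 0 / Hn n (del n) x ^ 2 * h x ∂mu +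
        ∫ x, Dn n (del n) x 1 / Hn n (del n) x ^ 2 * h x ∂mu := by
    rw [← integral_add (int_test h1.continuous h2 h3 (cD 0)) (int_test h1.continuous h2 h3 (cD 1))]
    refine integral_congr_ae (Eventually.of_forall fun x => ?_)
    simp only [← Dn_sum n (del_pos n)]
    ring
  rw [b1 0, b1 1, b3]
  ring

end test

lemma grad_apply (h : E → ℝ) (x : E) (i : Fin 2) : gradient h x i = fderiv ℝ h x (ee i) := by
  rw [← inner_gradient_left, ee, EuclideanSpace.inner_single_right]
  simp

lemma int_bdd {f φ : E → ℝ} (hf : Integrable f mu) (hφ : Continuous φ)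
    (hc : HasCompactSupport φ) : Integrable (fun x => f x * φ x) mu := by
  obtain ⟨C, hC⟩ := hφ.bounded_above_of_compact_support hc
  exact hf.mul_bdd hφ.aestronglyMeasurable (Eventually.of_forall hC)

lemma int_q (i : Fin 2) : Integrable (fun x => WW x i ^ 2 / HH x ^ 3) mu := by
  refine int_MM.mono' (aesm_lim i 2 3) ?_
  filter_upwards [ae_all_iff.mpr fun n => q_bound n i, lim_div i 2 3] with x a b
  exact le_of_tendsto' b.abs a

lemma weak_eq' {h : E → ℝ} (h1 : ContDiff ℝ 1 h) (h2 : HasCompactSupport h)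
    (h3 : tsupport h ⊆ ball 0 (1 / 4)) :
    ∫ x, inner ℝ (gg x) (gradient h x + h x • bb x) ∂mu = 0 := by
  have i1 := fun i => int_bdd ((gi_two i).integrable one_le_two)
    (test_der h1 h2 i).1 (test_der h1 h2 i).2
  have i2 := fun i => (int_bdd (int_q i) h1.continuous h2).const_mul 2
  rw [← weak_eq h1 h2 h3, ← integral_const_mul, ← integral_const_mul,
    ← integral_add (i1 0) (i1 1), ← integral_add ((i1 0).fun_add (i1 1)) (i2 0),
    ← integral_add (((i1 0).fun_add (i1 1)).fun_add (i2 0)) (i2 1)]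
  refine integral_congr_ae ?_
  filter_upwards [ae_off] with x hx
  have := HH_ge hx.1 hx.2
  simp only [PiLp.inner_apply, Fin.sum_univ_two, PiLp.add_apply, PiLp.smul_apply, grad_apply,
    gg, bb, smul_eq_mul]
  simp
  field_simp
  ring

lemma le_of_ae {f : E → ℝ} (hf : ContinuousOn f (ball 0 (1 / 4))) {U : Set E} (hU : IsOpen U)
    {a : ℝ} (ha : ∀ᵐ x ∂mu, x ∈ U → f x ≤ a) {x : E} (hx : x ∈ ball (0 : E) (1 / 4))
    (hxU : x ∈ U) : f x ≤ a := by
  by_contra hlt
  have h1 : IsOpen ((ball (0 : E) (1 / 4) ∩ f ⁻¹' Ioi a) ∩ U) :=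
    (hf.isOpen_inter_preimage isOpen_ball isOpen_Ioi).inter hU
  have h2 : (volume : Measure E) ((ball (0 : E) (1 / 4) ∩ f ⁻¹' Ioi a) ∩ U) = 0 := by
    unfold mu at ha
    rw [ae_restrict_iff' measurableSet_ball] at ha
    refine measure_mono_null (fun y hy => ?_) (ae_iff.mp ha)
    exact fun h => absurd (h hy.1.1 hy.2) (not_le.mpr hy.1.2)
  have h3 := h1.eq_empty_of_measure_zero h2
  have : x ∈ (ball (0 : E) (1 / 4) ∩ f ⁻¹' Ioi a) ∩ U := ⟨⟨hx, not_le.mp hlt⟩, hxU⟩
  rw [h3] at this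
  exact this

lemma HH_ge_k {x : E} (hx : x ∈ ball (0 : E) (1 / 4)) (hx1 : x 1 ≠ 0) (k : ℕ) :
    1 - eps k / 2 * log (dd k x) ≤ HH x := by
  have hd : 0 < dd k x := lt_of_lt_of_le (by positivity) (dd_ge k x)
  have h1 : Tendsto (fun n => 1 - eps k / 2 * log (dd k x + del n)) atTop
      (𝓝 (1 - eps k / 2 * log (dd k x + 0))) :=
    (((del_lim.const_add _).log (by simpa using hd.ne')).const_mul _).const_sub _
  rw [add_zero] at h1
  refine le_of_tendsto_of_tendsto h1 (H_lim hx hx1) ?_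
  filter_upwards [eventually_gt_atTop k] with n hn
  exact Hn_ge n hx (del_pos n).le (del_le n) (Finset.mem_range.mpr hn)

lemma HH_le {x : E} (hx : x ∈ ball (0 : E) (1 / 4)) (hx1 : x 1 ≠ 0) (hx0 : x 0 < 0) :
    HH x ≤ 3 := by
  refine le_of_tendsto' (H_lim hx hx1) fun n => ?_
  unfold Hn
  have h1 : ∑ k ∈ Finset.range n, eps k * T1 k x (del n) ≤ ∑ k ∈ Finset.range n, 2 * lamb k := by
    refine Finset.sum_le_sum fun k _ => ?_
    have ha := al_pos k
    have hl := lamb_pos k
    have h2 : al k ^ 2 ≤ dd k x + del n := by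
      have := cc_sq_le k x 0
      rw [cc_zero] at this
      nlinarith [del_pos n]
    have h3 := log_le_log (by positivity) h2
    rw [log_pow] at h3
    have h4 := log_le_sub_one_of_pos (inv_pos.mpr ha)
    rw [log_inv] at h4
    have h5 : T1 k x (del n) ≤ (al k)⁻¹ := by
      unfold T1
      push_cast at h3
      linarith
    refine (mul_le_mul_of_nonneg_left h5 (eps_pos k).le).trans (le_of_eq ?_)
    rw [eps_eq, al_eq]
    field_simp
  rw [← Finset.mul_sum] at h1
  linarith [sum_lamb_le n]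

lemma pt_lim : Tendsto (fun k => pt (k + 1)) atTop (𝓝 0) := by
  rw [tendsto_zero_iff_norm_tendsto_zero]
  simp only [norm_pt, al]
  exact (tendsto_pow_atTop_nhds_zero_of_lt_one (by norm_num) (by norm_num)).comp
    (tendsto_atTop_mono (fun k => by simp only [id]; omega) tendsto_id)

lemma pt_mem (k : ℕ) : pt (k + 1) ∈ ball (0 : E) (1 / 4) := by
  rw [mem_ball_zero_iff, norm_pt]
  have h1 := al_le k
  have h2 : al (k + 1) = al k / 2 := by unfold al; rw [pow_succ _ (k + 2)]; ring
  linarith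

theorem not_cont : ¬ ∃ c : E → ℝ, ContinuousOn c (ball 0 (1 / 4)) ∧ uu =ᵐ[mu] c := by
  rintro ⟨c, hc, hu⟩
  have h0 : ContinuousAt c 0 := hc.continuousAt (ball_mem_nhds _ (by norm_num))
  have h1 : ∀ k, c (pt (k + 1)) ≤ 1 / 6 := by
    intro k
    have he := eps_pos (k + 1)
    refine le_of_ae hc (U := {x | dd (k + 1) x < exp (-(12 / eps (k + 1)))})
      (isOpen_lt (cont_dd _) continuous_const) ?_ (pt_mem k) (by simp [dd, exp_pos])
    filter_upwards [ae_off, hu] with x hx hxu hU
    have hd : 0 < dd (k + 1) x := lt_of_lt_of_le (by have := hx.2; positivity) (dd_ge _ x)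
    have h2 := (log_lt_iff_lt_exp hd).mpr hU
    have h3 := HH_ge_k hx.1 hx.2 (k + 1)
    have h4 : eps (k + 1) / 2 * log (dd (k + 1) x) ≤ eps (k + 1) / 2 * -(12 / eps (k + 1)) :=
      mul_le_mul_of_nonneg_left h2.le (by positivity)
    have h5 : eps (k + 1) / 2 * -(12 / eps (k + 1)) = -6 := by field_simp; norm_num
    rw [← hxu, uu, one_div]
    exact inv_anti₀ (by norm_num) (by linarith)
  have h2 : ∀ k, - c (- pt (k + 1)) ≤ - (1 / 3) := by
    intro k
    refine le_of_ae (f := fun x => - c x) hc.neg (U := {x : E | x 0 < 0})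
      (isOpen_lt (by fun_prop) continuous_const) ?_ (by simpa using pt_mem k)
      (by simp [pt, al_pos])
    filter_upwards [ae_off, hu] with x hx hxu hU
    rw [← hxu, uu, one_div, neg_le_neg_iff]
    exact inv_anti₀ (by linarith [HH_ge hx.1 hx.2]) (HH_le hx.1 hx.2 hU)
  have h3 : c 0 ≤ 1 / 6 := le_of_tendsto' (h0.tendsto.comp pt_lim) h1
  have h4 : Tendsto (fun k => - pt (k + 1)) atTop (𝓝 0) := by simpa using pt_lim.neg
  have h5 : - c 0 ≤ - (1 / 3) := le_of_tendsto' (h0.tendsto.comp h4).neg h2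
  linarith

end Pool.Agent.H598Z.Drift
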