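import Mathlib

set_option autoImplicit false

namespace Pool.Agent.H598Z.Drift

open MeasureTheory Set Filter Topology Metric Real
open scoped ENNReal

abbrev E := EuclideanSpace ℝ (Fin 2)

/-- The basic majorant. -/
noncomputable def Gs (ε d : ℝ) : ℝ := ε ^ 2 / (d * (1 - ε / 2 * log d) ^ 2)

lemma Gs_nonneg (ε : ℝ) {d : ℝ} (hd : 0 ≤ d) : 0 ≤ Gs ε d := by
  unfold Gs; positivity

lemma mono_aux {ε r s : ℝ} (hε0 : 0 < ε) (hε1 : ε ≤ 1) (hr : 0 < r) (hrs : r ≤ s) (hs : s ≤ 1) :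
    r * (1 - ε * log r) ≤ s * (1 - ε * log s) := by
  have hs0 : 0 < s := hr.trans_le hrs
  have h1 : log s ≤ 0 := log_nonpos hs0.le hs
  have h2 : log s - log r ≤ s / r - 1 := by
    rw [← log_div hs0.ne' hr.ne']; exact log_le_sub_one_of_pos (div_pos hs0 hr)
  have h3 : r * (log s - log r) ≤ s - r := by
    have := mul_le_mul_of_nonneg_left h2 hr.le
    rwa [mul_sub r (s / r), mul_div_cancel₀ _ hr.ne', mul_one] at this
  have h4 : (s - r) * log s ≤ 0 := mul_nonpos_of_nonneg_of_nonpos (by linarith) h1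
  have h5 : s * log s - r * log r ≤ s - r := by nlinarith
  have h6 := mul_le_mul_of_nonneg_left h5 hε0.le
  nlinarith

lemma mono_sq {ε d q : ℝ} (hε0 : 0 < ε) (hε1 : ε ≤ 1) (hd : 0 < d) (hdq : d ≤ q) (hq : q ≤ 1) :
    d * (1 - ε / 2 * log d) ^ 2 ≤ q * (1 - ε / 2 * log q) ^ 2 := by
  have hq0 : 0 < q := hd.trans_le hdq
  have h := mono_aux hε0 hε1 (sqrt_pos.mpr hd) (sqrt_le_sqrt hdq) (sqrt_le_one.mpr hq)
  rw [log_sqrt hd.le, log_sqrt hq0.le] at h
  have h0 : 0 ≤ √d * (1 - ε * (log d / 2)) := by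
    have : log d ≤ 0 := log_nonpos hd.le (hdq.trans hq)
    exact mul_nonneg (sqrt_nonneg _) (by nlinarith)
  have h2 := pow_le_pow_left₀ h0 h 2
  rw [mul_pow, mul_pow, sq_sqrt hd.le, sq_sqrt hq0.le] at h2
  have e1 : ∀ t : ℝ, 1 - ε / 2 * t = 1 - ε * (t / 2) := fun t => by ring
  rw [e1, e1]
  exact h2

lemma one_dim {ε : ℝ} (hε : 0 < ε) :
    IntegrableOn (fun y : ℝ => y * Gs ε (y ^ 2)) (Ioo 0 1) ∧
      ∫ y in Ioo (0 : ℝ) 1, y * Gs ε (y ^ 2) = ε := by
  let F : ℝ → ℝ := fun r => if r = 0 then 0 else ε / (1 - ε * log r)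
  have hpos : ∀ r : ℝ, 0 < r → r ≤ 1 → 0 < 1 - ε * log r := fun r h0 h1 => by
    have := mul_nonneg hε.le (neg_nonneg.mpr (log_nonpos h0.le h1))
    linarith
  have hder : ∀ r : ℝ, 0 < r → r ≤ 1 → HasDerivAt F (r * Gs ε (r ^ 2)) r := by
    intro r h0 h1
    have h2 : HasDerivAt (fun r => ε / (1 - ε * log r)) (r * Gs ε (r ^ 2)) r := by
      have h3 := ((hasDerivAt_log h0.ne').const_mul ε).const_sub 1
      have h4 := (hasDerivAt_const r ε).div h3 (hpos r h0 h1).ne'
      refine h4.congr_deriv ?_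
      symm
      unfold Gs
      rw [log_pow]
      have h5 : (1 - ε / 2 * ((2 : ℕ) * log r)) = 1 - ε * log r := by push_cast; ring
      rw [h5]
      have := (hpos r h0 h1).ne'
      field_simp
      ring
    refine h2.congr_of_eventuallyEq ?_
    filter_upwards [lt_mem_nhds h0] with y hy
    simp [F, hy.ne']
  have hcont : ContinuousOn F (Icc 0 1) := by
    intro r hr
    rcases hr.1.eq_or_lt with h | h
    · subst h
      have h1 : Tendsto (fun r : ℝ => ε / (1 - ε * log r)) (𝓝[>] 0) (𝓝 0) := by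
        refine Tendsto.div_atTop tendsto_const_nhds ?_
        have h2 : Tendsto (fun r : ℝ => ε * -log r) (𝓝[>] 0) atTop :=
          (tendsto_neg_atBot_atTop.comp tendsto_log_nhdsGT_zero).const_mul_atTop hε
        refine (tendsto_atTop_add_const_left _ 1 h2).congr fun r => by ring
      have h3 : ContinuousWithinAt F (Ioi 0) 0 := by
        have : F 0 = 0 := by simp [F]
        rw [ContinuousWithinAt, this]
        refine h1.congr' ?_
        filter_upwards [self_mem_nhdsWithin] with y hy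
        simp [F, (show (0 : ℝ) < y from hy).ne']
      exact (continuousWithinAt_Ioi_iff_Ici.mp h3).mono Icc_subset_Ici_self
    · exact (hder r h hr.2).continuousAt.continuousWithinAt
  have hint : IntegrableOn (fun y : ℝ => y * Gs ε (y ^ 2)) (Ioc 0 1) :=
    intervalIntegral.integrableOn_deriv_of_nonneg hcont (fun x hx => hder x hx.1 hx.2.le)
      (fun x hx => mul_nonneg hx.1.le (Gs_nonneg _ (sq_nonneg _)))
  refine ⟨hint.mono_set Ioo_subset_Ioc_self, ?_⟩
  rw [← integral_Ioc_eq_integral_Ioo, ← intervalIntegral.integral_of_le zero_le_one,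
    intervalIntegral.integral_eq_sub_of_hasDerivAt_of_le zero_le_one hcont
      (fun x hx => hder x hx.1 hx.2.le)
      ((intervalIntegrable_iff_integrableOn_Ioc_of_le zero_le_one).mpr hint)]
  simp [F]

/-- A universal constant. -/
noncomputable def Cb : ℝ := 2 * (volume : Measure E).real (ball 0 1)

lemma radial {ε : ℝ} (hε : 0 < ε) :
    ∫⁻ x in ball (0 : E) 1, ENNReal.ofReal (Gs ε (‖x‖ ^ 2)) = ENNReal.ofReal (Cb * ε) := by
  have hi : IntegrableOn (fun x : E => Gs ε (‖x‖ ^ 2)) (ball 0 1) := by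
    rw [integrableOn_fun_norm_addHaar volume (f := fun y => Gs ε (y ^ 2))]
    simpa using (one_dim hε).1
  rw [← ofReal_integral_eq_lintegral_ofReal hi
    (Eventually.of_forall fun x => Gs_nonneg _ (sq_nonneg _))]
  congr 1
  have h1 := integral_fun_norm_addHaar (volume : Measure E)
    ((Iio (1 : ℝ)).indicator fun y => Gs ε (y ^ 2))
  have h2 : ∫ x in ball (0 : E) 1, Gs ε (‖x‖ ^ 2) =
      ∫ x : E, (Iio (1 : ℝ)).indicator (fun y => Gs ε (y ^ 2)) ‖x‖ := by
    rw [← integral_indicator measurableSet_ball]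
    congr 1
    ext x
    simp [indicator]
  have h3 : ∫ y in Ioi (0 : ℝ), y ^ (Module.finrank ℝ E - 1) •
      (Iio (1 : ℝ)).indicator (fun y => Gs ε (y ^ 2)) y = ε := by
    refine Eq.trans ?_ (one_dim hε).2
    rw [← Ioi_inter_Iio, ← setIntegral_indicator measurableSet_Iio]
    congr 1
    ext y
    simp [indicator]
  rw [h2, h1, h3]
  simp [Cb]
  ring

lemma meas_Gs (ε : ℝ) : Measurable (Gs ε) := by
  unfold Gs; fun_prop

lemma shifted {ε : ℝ} (hε : 0 < ε) (a : E) (ha : ‖a‖ ≤ 1 / 4) :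
    ∫⁻ x in ball (0 : E) (1 / 4), ENNReal.ofReal (Gs ε (‖x - a‖ ^ 2)) ≤
      ENNReal.ofReal (Cb * ε) := by
  rw [← radial hε, ← lintegral_indicator measurableSet_ball (s := ball (0 : E) 1),
    ← lintegral_sub_right_eq_self (μ := (volume : Measure E)) _ a]
  refine le_trans (le_of_eq ?_) (setLIntegral_le_lintegral (ball (0 : E) (1 / 4)) _)
  refine setLIntegral_congr_fun measurableSet_ball fun x hx => ?_
  have : x - a ∈ ball (0 : E) 1 := by
    rw [mem_ball_zero_iff] at hx ⊢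
    linarith [norm_sub_le x a]
  simp only [indicator_of_mem this]

end Pool.Agent.H598Z.Drift
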